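import Pool.Agent.helper54.UG.Spec

/-!
# Row ug:CNJ, change of basis
-/

set_option autoImplicit false

namespace Pool.Agent.UG

open Matrix Pool.Agent.H48SL

/-- every nonzero rational vector is a multiple of a vector `g e0` -/
theorem CNJ_vec {n : ℕ} (hn : 1 ≤ n) (v : Fin (n + 1) → ℚ) (hv : v ≠ 0) :
    ∃ (g : SLZ (n + 1)) (c : ℚ), qg g *ᵥ e0 n = c • v := by
  obtain ⟨N, w, hN, hw⟩ := clear_denom v
  have hw0 : w ≠ 0 := by
    intro h0
    rw [h0, castV_zero] at hw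
    rcases smul_eq_zero.1 hw.symm with h1 | h1
    · exact hN (by exact_mod_cast h1)
    · exact hv h1
  obtain ⟨k, x0, u, hk, hx0, hu⟩ := primitive_part w hw0
  obtain ⟨a, -, ha⟩ := euclid (Finset.univ : Finset (Fin (n + 1))) 0 (Finset.mem_univ _)
    (by rw [Finset.card_univ, Fintype.card_fin]; omega) _ x0 rfl (by
      intro d hd
      apply isUnit_of_dvd_one
      rw [← hu]
      exact Finset.dvd_sum fun i _ => Dvd.dvd.mul_left (hd i (Finset.mem_univ _)) _)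
  have ha' : (a : Matrix (Fin (n + 1)) (Fin (n + 1)) ℤ) *ᵥ x0 = Pi.single 0 1 := by
    ext i
    rw [ha i (Finset.mem_univ _), Pi.single_apply]
  refine ⟨a⁻¹, (N : ℚ) / k, ?_⟩
  have h1 : e0 n = qg a *ᵥ castV x0 := by
    rw [qg_mulVec_castV, ha', castV_single]
    rfl
  rw [h1, mulVec_mulVec, qg_inv_mul, one_mulVec]
  have h2 : castV w = (k : ℚ) • castV x0 := by
    rw [hx0]
    ext i
    simp [castV]
  have hk' : (k : ℚ) ≠ 0 := by exact_mod_cast hk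
  have h3 : castV x0 = (k : ℚ)⁻¹ • castV w := by
    rw [h2, smul_smul, inv_mul_cancel₀ hk', one_smul]
  rw [h3, hw, smul_smul]
  congr 1
  rw [div_eq_inv_mul]

/-- conjugation of matrices -/
def CNJ_L {n : ℕ} (g : SLZ n) : MQ n →ₗ[ℚ] MQ n :=
  (LinearMap.mulLeft ℚ (qg g)) ∘ₗ (LinearMap.mulRight ℚ (qg g⁻¹))

theorem CNJ_L_apply {n : ℕ} (g : SLZ n) (X : MQ n) : CNJ_L g X = qg g * X * qg g⁻¹ := by
  unfold CNJ_L
  rw [LinearMap.comp_apply, LinearMap.mulRight_apply, LinearMap.mulLeft_apply, mul_assoc]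

theorem CNJ_L_inv {n : ℕ} (g : SLZ n) (X : MQ n) : qg g⁻¹ * CNJ_L g X * qg g = X := by
  rw [CNJ_L_apply]
  have h1 : qg g⁻¹ * (qg g * X * qg g⁻¹) * qg g =
      (qg g⁻¹ * qg g) * X * (qg g⁻¹ * qg g) := by
    simp only [mul_assoc]
  rw [h1, qg_inv_mul, one_mul, mul_one]

theorem CNJ_L_mul {n : ℕ} (g : SLZ n) (X Y : MQ n) :
    CNJ_L g (X * Y) = CNJ_L g X * CNJ_L g Y := by
  rw [CNJ_L_apply, CNJ_L_apply, CNJ_L_apply]
  have h1 : qg g * X * qg g⁻¹ * (qg g * Y * qg g⁻¹) =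
      qg g * X * (qg g⁻¹ * qg g) * Y * qg g⁻¹ := by
    simp only [mul_assoc]
  rw [h1, qg_inv_mul, mul_one, mul_assoc (qg g) X Y]

theorem CNJ_L_one {n : ℕ} (g : SLZ n) : CNJ_L g (1 : MQ n) = 1 := by
  rw [CNJ_L_apply, mul_one, qg_mul_inv]

theorem CNJ_L_zero_iff {n : ℕ} (g : SLZ n) (X : MQ n) (h : CNJ_L g X = 0) : X = 0 := by
  rw [← CNJ_L_inv g X, h, mul_zero, zero_mul]

theorem CNJ_L_prod {n : ℕ} (g : SLZ n) (l : List (MQ n)) :
    CNJ_L g l.prod = (l.map (CNJ_L g)).prod := by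
  induction l with
  | nil => rw [List.prod_nil, List.map_nil, List.prod_nil, CNJ_L_one]
  | cons X l ih => rw [List.prod_cons, CNJ_L_mul, ih, List.map_cons, List.prod_cons]

theorem CNJ (hEXC : EXC_stmt) : CNJ_stmt := by
  intro n hn H 𝔞 hZ hA hLat hStar hR1 v hv hkill
  obtain ⟨g, c, hg⟩ := CNJ_vec hn v hv
  have hmem : ∀ h : SLZ (n + 1), h ∈ H.comap (MulAut.conj g).toMonoidHom ↔ g * h * g⁻¹ ∈ H :=
    fun h => Iff.rfl
  have hmemA : ∀ X, X ∈ 𝔞.comap (CNJ_L g) ↔ CNJ_L g X ∈ 𝔞 := fun X => Iff.rfl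
  have hA' : ANil (𝔞.comap (CNJ_L g)) := by
    obtain ⟨N, hN⟩ := hA
    refine ⟨N, fun l hl hlen => ?_⟩
    apply CNJ_L_zero_iff g
    rw [CNJ_L_prod]
    apply hN
    · intro Y hY
      rw [List.mem_map] at hY
      obtain ⟨X, hX, rfl⟩ := hY
      exact hl X hX
    · rw [List.length_map]
      exact hlen
  refine ⟨H.comap (MulAut.conj g).toMonoidHom, 𝔞.comap (CNJ_L g), ?_, ?_, hA', ?_, ?_, ?_, ?_⟩
  · intro hfi
    have h1 : (H.comap (MulAut.conj g).toMonoidHom).index = H.index :=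
      Subgroup.index_comap_of_surjective H (MulAut.conj g).surjective
    exact ⟨by rw [← h1]; exact hfi.index_ne_zero⟩
  · intro P hP x
    have hF : IsPoly (fun x : SLZ (n + 1) => MvPolynomial.eval
        (fun y : Fin (n + 1) × Fin (n + 1) =>
          (x : Matrix (Fin (n + 1)) (Fin (n + 1)) ℤ) y.1 y.2) P) := ⟨P, fun _ => rfl⟩
    obtain ⟨P', hP'⟩ := ip_mul_right (ip_mul_left hF g⁻¹) g
    have h1 := hZ P' (fun h hh => by
      rw [← hP' h]
      apply hP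
      rw [hmem]
      have h2 : g * (g⁻¹ * (h * g)) * g⁻¹ = h := by group
      rw [h2]
      exact hh) (g * x * g⁻¹)
    rw [← hP' (g * x * g⁻¹)] at h1
    have h3 : g⁻¹ * (g * x * g⁻¹ * g) = x := by group
    simp only [h3] at h1
    exact h1
  · intro X hX
    obtain ⟨k, hk, h, hh, hexp⟩ := hLat _ hX
    have hnil : IsNilpotent ((k : ℚ) • X) :=
      hA'.nil (Submodule.smul_mem _ _ hX)
    refine ⟨k, hk, g⁻¹ * h * g, ?_, ?_⟩
    · rw [hmem]
      have h2 : g * (g⁻¹ * h * g) * g⁻¹ = h := by group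
      rw [h2]
      exact hh
    · have h3 := (hEXC (n + 1) g ((k : ℚ) • X) hnil).2
      have h4 : (k : ℚ) • CNJ_L g X = qg g * ((k : ℚ) • X) * qg g⁻¹ := by
        rw [← map_smul, CNJ_L_apply]
      rw [h4, h3] at hexp
      rw [qg_mul, qg_mul, hexp]
      have h5 : qg g⁻¹ * (qg g * IsNilpotent.exp ((k : ℚ) • X) * qg g⁻¹) * qg g =
          (qg g⁻¹ * qg g) * IsNilpotent.exp ((k : ℚ) • X) * (qg g⁻¹ * qg g) := by
        simp only [mul_assoc]
      rw [h5, qg_inv_mul, one_mul, mul_one]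
  · intro u
    obtain ⟨Y, hY, hY0, hYu⟩ := hStar (qg g *ᵥ u)
    have h1 : CNJ_L g (qg g⁻¹ * Y * qg g) = Y := by
      rw [CNJ_L_apply]
      have h2 : qg g * (qg g⁻¹ * Y * qg g) * qg g⁻¹ =
          (qg g * qg g⁻¹) * Y * (qg g * qg g⁻¹) := by
        simp only [mul_assoc]
      rw [h2, qg_mul_inv, one_mul, mul_one]
    refine ⟨qg g⁻¹ * Y * qg g, ?_, ?_, ?_⟩
    · rw [hmemA, h1]
      exact hY
    · intro h0
      rw [h0, map_zero] at h1
      exact hY0 h1.symm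
    · rw [← mulVec_mulVec, ← mulVec_mulVec, hYu, mulVec_zero]
  · intro e φ hmem'
    rw [hmemA, CNJ_L_apply] at hmem'
    have h1 : qg g * vecMulVec e φ * qg g⁻¹ = vecMulVec (qg g *ᵥ e) (φ ᵥ* qg g⁻¹) := by
      rw [mul_vecMulVec, vecMulVec_mul]
    rw [h1] at hmem'
    have h2 := hR1 _ _ hmem'
    apply CNJ_L_zero_iff g
    rw [CNJ_L_apply, h1, h2]
  · intro X hX
    have h1 := hkill _ hX
    have h2 : (CNJ_L g X) *ᵥ (qg g *ᵥ e0 n) = 0 := by
      rw [hg, mulVec_smul, h1, smul_zero]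
    have h3 : X *ᵥ e0 n = qg g⁻¹ *ᵥ ((CNJ_L g X) *ᵥ (qg g *ᵥ e0 n)) := by
      rw [mulVec_mulVec, mulVec_mulVec, CNJ_L_inv]
    rw [h3, h2, mulVec_zero]

end Pool.Agent.UG
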